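import Pool.Agent.TH298.MI.Final3

set_option autoImplicit false

open Polynomial
open scoped ENNReal

namespace Pool.Agent.Results.MP_172a45_an.SectorZeros

/-- The sum of the reciprocal distances from `a` to the critical points of `P`, listed with
multiplicity; it is `∞` if one of them is equal to `a`. -/
noncomputable def Sigma (P : ℂ[X]) (a : ℂ) : ℝ≥0∞ :=
  (P.derivative.roots.map fun ζ => (‖a - ζ‖ₑ)⁻¹).sum

/-- Let `P` have degree `n ≥ 2` and all its zeros in the closed unit disc, and let `a` be a zero.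
(1) `n - 1 ≤ Σ(P,a) + 2 Re ∑ a/(a - λ)` (sum over the other zeros `λ`).
(2) Let `|a| < 1` and `0 < δ ≤ 1/2`, and suppose that every other zero `λ` is at distance at
least `δ` from `a` or lies in the sector `|Im (a/(a - λ))| ≤ Re (a/(a - λ)) / 2`. Put
`Λ = log n + ∑ log (1 + δ/(2|a - λ|))`, the sum over the other zeros with `|a - λ| < δ`. If
`6·10^7 Λ^3 ≤ (n - 1) (1 - |a|)^4 δ^2`, then `Σ(P,a) ≥ n - 1`. -/
theorem result (P : ℂ[X]) (hn : 2 ≤ P.natDegree) (hz : ∀ z ∈ P.roots, ‖z‖ ≤ 1) (a : ℂ)
    (ha : a ∈ P.roots) :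
    ((P.natDegree - 1 : ℕ) : ℝ≥0∞) ≤ Sigma P a +
        ENNReal.ofReal (2 * (((P.roots.erase a).map fun z => a / (a - z)).sum).re) ∧
    (∀ δ : ℝ, 0 < δ → δ ≤ 1 / 2 → ‖a‖ < 1 →
      (∀ z ∈ P.roots.erase a,
        δ ≤ ‖a - z‖ ∨ |(a / (a - z)).im| ≤ (a / (a - z)).re / 2) →
      6 * 10 ^ 7 * (Real.log P.natDegree + (((P.roots.erase a).map fun z =>
        if δ ≤ ‖a - z‖ then 0 else Real.log (1 + δ / (2 * ‖a - z‖))).sum)) ^ 3 ≤
        (P.natDegree - 1) * (1 - ‖a‖) ^ 4 * δ ^ 2 →
      ((P.natDegree - 1 : ℕ) : ℝ≥0∞) ≤ Sigma P a) := by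
  obtain ⟨m, hm⟩ : ∃ m, P.natDegree = m + 1 := ⟨P.natDegree - 1, by omega⟩
  have hm1 : 1 ≤ m := by omega
  have hd0 : P.derivative ≠ 0 := by
    intro h
    have := derivative_eq_zero.mp h
    omega
  by_cases hd : P.derivative.eval a = 0
  · have hmem : a ∈ P.derivative.roots := (mem_roots hd0).mpr hd
    obtain ⟨R, hR⟩ := Multiset.exists_cons_of_mem hmem
    have htop : Sigma P a = ⊤ := by
      unfold Sigma
      rw [hR, Multiset.map_cons, Multiset.sum_cons, sub_self, enorm_zero, ENNReal.inv_zero,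
        top_add]
    rw [htop, top_add]
    exact ⟨le_top, fun _ _ _ _ _ _ => le_top⟩
  · have h := Pool.Agent.TH298.MI.main_real hm hm1 hz ha hd
    have h2 : Sigma P a = ENNReal.ofReal (P.derivative.roots.map (fun w => ‖a - w‖⁻¹)).sum := by
      unfold Sigma
      have hne : ∀ w ∈ P.derivative.roots, a - w ≠ 0 := by
        intro w hw h0
        apply hd
        rw [sub_eq_zero.mp h0]
        exact (mem_roots hd0).mp hw
      revert hne
      generalize P.derivative.roots = M
      intro hne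
      induction M using Multiset.induction_on with
      | empty => simp
      | cons w M ih =>
        rw [Multiset.map_cons, Multiset.sum_cons, Multiset.map_cons, Multiset.sum_cons,
          ih (fun v hv => hne v (Multiset.mem_cons_of_mem hv)), ENNReal.ofReal_add (by positivity)]
        · congr 1
          rw [ENNReal.ofReal_inv_of_pos (norm_pos_iff.mpr (hne w (Multiset.mem_cons_self _ _))),
            ofReal_norm]
        · apply Multiset.sum_nonneg
          intro x hx
          obtain ⟨v, _, rfl⟩ := Multiset.mem_map.mp hx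
          positivity
    have hnn : 0 ≤ (P.derivative.roots.map (fun w => ‖a - w‖⁻¹)).sum := by
      apply Multiset.sum_nonneg
      intro x hx
      obtain ⟨v, _, rfl⟩ := Multiset.mem_map.mp hx
      positivity
    have hnat : ((P.natDegree - 1 : ℕ) : ℝ≥0∞) = ENNReal.ofReal (m : ℝ) := by
      rw [hm, Nat.add_sub_cancel, ENNReal.ofReal_natCast]
    rw [h2, hnat]
    refine ⟨?_, fun δ hδ hδ1 ha1 hsep hlarge => ENNReal.ofReal_le_ofReal
      (Pool.Agent.TH298.MI.main_real3 hm hm1 hz ha hd hδ hδ1 ha1 hsep ?_)⟩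
    · rcases le_total 0 (2 * (((P.roots.erase a).map fun z => a / (a - z)).sum).re) with h0 | h0
      · rw [← ENNReal.ofReal_add hnn h0]
        exact ENNReal.ofReal_le_ofReal h.1
      · refine le_trans (ENNReal.ofReal_le_ofReal ?_) (le_add_of_nonneg_right zero_le)
        linarith [h.1]
    · have e1 : ((P.natDegree : ℕ) : ℝ) = m + 1 := by rw [hm]; push_cast; ring
      rw [e1] at hlarge
      have e2 : (m : ℝ) + 1 - 1 = m := by ring
      rw [e2] at hlarge
      exact hlarge

end Pool.Agent.Results.MP_172a45_an.SectorZeros
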